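import Mathlib

/-! Project GP11 (MP_6bc78b_nt), row SCG: the law on the circle with the Poisson density. -/

set_option autoImplicit false

namespace Pool.Agent.Lib.MP_6bc78b_nt.GP.H58P

open MeasureTheory Complex

/-- The Poisson density on `(0, 2π]`. -/
noncomputable def pk (r θ : ℝ) : ℝ := poissonKernel 0 (r : ℂ) (circleMap 0 1 θ) / (2 * Real.pi)

/-- The law. -/
noncomputable def mu (r : ℝ) : Measure ℝ :=
  (volume.restrict (Set.Ioc 0 (2 * Real.pi))).withDensity fun θ => ENNReal.ofReal (pk r θ)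

lemma pk_eq (r θ : ℝ) : pk r θ = (1 - r ^ 2) / ‖circleMap 0 1 θ - r‖ ^ 2 / (2 * Real.pi) := by
  unfold pk poissonKernel
  rw [sub_zero, sub_zero, norm_circleMap_zero, abs_one, one_pow, Complex.norm_real,
    Real.norm_eq_abs, sq_abs]

lemma norm_sub_pos {r : ℝ} (h0 : 0 ≤ r) (h1 : r < 1) (θ : ℝ) : 0 < ‖circleMap 0 1 θ - r‖ := by
  rw [norm_pos_iff, sub_ne_zero]
  intro h
  have h2 := congrArg norm h
  rw [norm_circleMap_zero, abs_one, Complex.norm_real, Real.norm_of_nonneg h0] at h2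
  linarith

lemma pk_nonneg {r : ℝ} (h0 : 0 ≤ r) (h1 : r < 1) (θ : ℝ) : 0 ≤ pk r θ := by
  rw [pk_eq]
  have h2 : 0 ≤ 1 - r ^ 2 := by nlinarith
  have h3 := Real.pi_pos
  positivity

lemma pk_cont {r : ℝ} (h0 : 0 ≤ r) (h1 : r < 1) : Continuous (pk r) := by
  have : pk r = fun θ => (1 - r ^ 2) / ‖circleMap 0 1 θ - r‖ ^ 2 / (2 * Real.pi) := by
    ext θ; exact pk_eq r θ
  rw [this]
  refine Continuous.div_const (Continuous.div continuous_const ?_ fun θ => ?_) _
  · exact (((continuous_circleMap 0 1).sub continuous_const).norm).pow 2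
  · exact pow_ne_zero 2 (norm_sub_pos h0 h1 θ).ne'

lemma int_mu {r : ℝ} (h0 : 0 ≤ r) (h1 : r < 1) (f : ℝ → ℂ) :
    ∫ θ, f θ ∂(mu r) = ∫ θ in (0 : ℝ)..2 * Real.pi, ((pk r θ : ℝ) : ℂ) * f θ := by
  unfold mu
  rw [integral_withDensity_eq_integral_toReal_smul
    ((pk_cont h0 h1).measurable.ennreal_ofReal)
    (Filter.Eventually.of_forall fun _ => ENNReal.ofReal_lt_top),
    intervalIntegral.integral_of_le (by have := Real.pi_pos; positivity)]
  refine integral_congr_ae (Filter.Eventually.of_forall fun θ => ?_)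
  simp only
  rw [ENNReal.toReal_ofReal (pk_nonneg h0 h1 θ), Complex.real_smul]

/-- nonnegative frequencies -/
lemma int_pow {r : ℝ} (h0 : 0 ≤ r) (h1 : r < 1) (k : ℕ) :
    ∫ θ, Complex.exp ((k : ℂ) * θ * I) ∂(mu r) = (r : ℂ) ^ k := by
  have h := DiffContOnCl.circleAverage_poissonKernel_smul (c := (0 : ℂ)) (w := (r : ℂ)) (R := 1)
    (f := fun z : ℂ => z ^ k) (Differentiable.diffContOnCl (by fun_prop))
    (by rw [Metric.mem_ball, dist_zero_right, Complex.norm_real, Real.norm_of_nonneg h0]; exact h1)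
  rw [Real.circleAverage_def] at h
  rw [int_mu h0 h1, ← h, ← intervalIntegral.integral_smul]
  refine intervalIntegral.integral_congr fun θ _ => ?_
  simp only [Pi.smul_apply', Complex.real_smul]
  unfold pk
  have h2 : circleMap 0 1 θ ^ k = Complex.exp ((k : ℂ) * θ * I) := by
    rw [circleMap_zero, Complex.ofReal_one, one_mul, ← Complex.exp_nat_mul]
    congr 1
    ring
  rw [h2]
  push_cast
  ring

instance {r : ℝ} : SFinite (mu r) := by unfold mu; infer_instance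

lemma mu_univ {r : ℝ} (h0 : 0 ≤ r) (h1 : r < 1) : mu r Set.univ = 1 := by
  unfold mu
  rw [withDensity_apply _ MeasurableSet.univ, Measure.restrict_univ]
  have hc := (pk_cont h0 h1)
  have hi : IntegrableOn (pk r) (Set.Ioc 0 (2 * Real.pi)) :=
    (hc.integrableOn_Icc (a := 0) (b := 2 * Real.pi)).mono_set Set.Ioc_subset_Icc_self
  rw [← ofReal_integral_eq_lintegral_ofReal hi
    (Filter.Eventually.of_forall fun θ => pk_nonneg h0 h1 θ)]
  have h := int_pow h0 h1 0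
  rw [int_mu h0 h1] at h
  simp only [Nat.cast_zero, zero_mul, Complex.exp_zero, mul_one, pow_zero] at h
  rw [intervalIntegral.integral_ofReal] at h
  have h2 : ∫ θ in (0 : ℝ)..2 * Real.pi, pk r θ = 1 := by exact_mod_cast h
  rw [intervalIntegral.integral_of_le (by have := Real.pi_pos; positivity)] at h2
  rw [h2, ENNReal.ofReal_one]

lemma isProb {r : ℝ} (h0 : 0 ≤ r) (h1 : r < 1) : IsProbabilityMeasure (mu r) :=
  ⟨mu_univ h0 h1⟩

/-- negative frequencies -/
lemma int_pow_neg {r : ℝ} (h0 : 0 ≤ r) (h1 : r < 1) (k : ℕ) :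
    ∫ θ, Complex.exp (-((k : ℂ) * θ * I)) ∂(mu r) = (r : ℂ) ^ k := by
  have h := congrArg (starRingEnd ℂ) (int_pow h0 h1 k)
  rw [← integral_conj, map_pow, Complex.conj_ofReal] at h
  rw [← h]
  refine integral_congr_ae (Filter.Eventually.of_forall fun θ => ?_)
  simp only
  rw [← Complex.exp_conj]
  congr 1
  simp only [map_mul, Complex.conj_I, Complex.conj_ofReal, map_natCast]
  ring

/-- all frequencies -/
theorem int_exp {r : ℝ} (h0 : 0 ≤ r) (h1 : r < 1) (k : ℤ) :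
    ∫ θ, Complex.exp ((k : ℂ) * θ * I) ∂(mu r) = (r : ℂ) ^ k.natAbs := by
  rcases Int.natAbs_eq k with h | h
  · have e : ((k : ℤ) : ℂ) = ((k.natAbs : ℕ) : ℂ) := by
      rw [← Int.cast_natCast, ← h]
    rw [e]
    exact int_pow h0 h1 _
  · have e : ((k : ℤ) : ℂ) = -((k.natAbs : ℕ) : ℂ) := by
      rw [← Int.cast_natCast, ← Int.cast_neg, ← h]
    rw [e]
    simp only [neg_mul]
    exact int_pow_neg h0 h1 _

lemma integrable_of_cont {r : ℝ} (h0 : 0 ≤ r) (h1 : r < 1) {f : ℝ → ℝ} (hf : Continuous f) {C : ℝ}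
    (hC : ∀ x, |f x| ≤ C) : Integrable f (mu r) := by
  haveI := isProb h0 h1
  exact Integrable.of_bound hf.aestronglyMeasurable C (Filter.Eventually.of_forall fun x => by
    rw [Real.norm_eq_abs]; exact hC x)

lemma int_cos {r : ℝ} (h0 : 0 ≤ r) (h1 : r < 1) (k : ℕ) :
    ∫ θ, Real.cos (k * θ) ∂(mu r) = r ^ k := by
  have h := congrArg Complex.re (int_pow h0 h1 k)
  haveI := isProb h0 h1
  have hint : Integrable (fun θ : ℝ => Complex.exp ((k : ℂ) * θ * I)) (mu r) := by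
    refine Integrable.of_bound (by fun_prop) 1 (Filter.Eventually.of_forall fun θ => ?_)
    have : (k : ℂ) * θ * I = ((k * θ : ℝ) : ℂ) * I := by push_cast; ring
    rw [this, Complex.norm_exp_ofReal_mul_I]
  have e1 : (∫ θ, Complex.exp ((k : ℂ) * θ * I) ∂(mu r)).re =
      ∫ θ, (Complex.exp ((k : ℂ) * θ * I)).re ∂(mu r) := by
    have := integral_re hint
    simpa using this.symm
  rw [e1] at h
  have e2 : ∀ θ : ℝ, (Complex.exp ((k : ℂ) * θ * I)).re = Real.cos (k * θ) := by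
    intro θ
    have : (k : ℂ) * θ * I = ((k * θ : ℝ) : ℂ) * I := by push_cast; ring
    rw [this, Complex.exp_ofReal_mul_I_re]
  simp only [e2] at h
  rw [h]
  rw [← Complex.ofReal_pow, Complex.ofReal_re]

/-- The centred variable of one prime. -/
noncomputable def Yr (r θ : ℝ) : ℝ := r * (Real.cos θ - r)

lemma Yr_cont (r : ℝ) : Continuous (Yr r) := by unfold Yr; fun_prop

lemma Yr_abs {r : ℝ} (h0 : 0 ≤ r) (h1 : r < 1) (θ : ℝ) : |Yr r θ| ≤ 2 * r := by
  unfold Yr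
  rw [abs_mul, abs_of_nonneg h0]
  have h2 := Real.abs_cos_le_one θ
  have h3 : |Real.cos θ - r| ≤ 2 := by
    rw [abs_le] at h2 ⊢
    constructor <;> linarith [h2.1, h2.2]
  nlinarith

lemma lin {r : ℝ} (h0 : 0 ≤ r) (h1 : r < 1) (a b c d : ℝ) :
    ∫ θ, (a * Real.cos (3 * θ) + b * Real.cos (2 * θ) + c * Real.cos θ + d) ∂(mu r) =
      a * r ^ 3 + b * r ^ 2 + c * r + d := by
  haveI := isProb h0 h1
  have hc : ∀ k : ℕ, Integrable (fun θ : ℝ => Real.cos (k * θ)) (mu r) := fun k =>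
    integrable_of_cont h0 h1 (by fun_prop) fun x => Real.abs_cos_le_one _
  have c1 := int_cos h0 h1 1
  have c2 := int_cos h0 h1 2
  have c3 := int_cos h0 h1 3
  have i1 := hc 1
  have i2 := hc 2
  have i3 := hc 3
  simp only [Nat.cast_one, one_mul, pow_one, Nat.cast_ofNat] at c1 c2 c3 i1 i2 i3
  have j3 : Integrable (fun θ => a * Real.cos (3 * θ)) (mu r) := i3.const_mul a
  have j2 : Integrable (fun θ => b * Real.cos (2 * θ)) (mu r) := i2.const_mul b
  have j1 : Integrable (fun θ => c * Real.cos θ) (mu r) := i1.const_mul c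
  have j4 : Integrable (fun θ => a * Real.cos (3 * θ) + b * Real.cos (2 * θ)) (mu r) := j3.add j2
  have j5 : Integrable (fun θ => a * Real.cos (3 * θ) + b * Real.cos (2 * θ) + c * Real.cos θ)
      (mu r) := j4.add j1
  rw [integral_add j5 (integrable_const d), integral_add j4 j1, integral_add j3 j2,
    integral_const_mul, integral_const_mul, integral_const_mul, c1, c2, c3]
  simp

/-- The first four moments. -/
theorem moments {r : ℝ} (h0 : 0 ≤ r) (h1 : r < 1) :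
    ∫ θ, Yr r θ ∂(mu r) = 0 ∧ ∫ θ, Yr r θ ^ 2 ∂(mu r) = r ^ 2 * (1 - r ^ 2) / 2 ∧
    |∫ θ, Yr r θ ^ 3 ∂(mu r)| ≤ 16 * r ^ 4 ∧ ∫ θ, Yr r θ ^ 4 ∂(mu r) ≤ 16 * r ^ 4 := by
  haveI := isProb h0 h1
  have e1 : ∀ θ, Yr r θ = 0 * Real.cos (3 * θ) + 0 * Real.cos (2 * θ) + r * Real.cos θ +
      (-r ^ 2) := fun θ => by unfold Yr; ring
  have e2 : ∀ θ, Yr r θ ^ 2 = 0 * Real.cos (3 * θ) + r ^ 2 / 2 * Real.cos (2 * θ) +
      (-(2 * r ^ 3)) * Real.cos θ + (r ^ 2 / 2 + r ^ 4) := fun θ => by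
    rw [Real.cos_two_mul]; unfold Yr; ring
  have e3 : ∀ θ, Yr r θ ^ 3 = r ^ 3 / 4 * Real.cos (3 * θ) + (-(3 * r ^ 4 / 2)) * Real.cos (2 * θ) +
      (3 * r ^ 3 / 4 + 3 * r ^ 5) * Real.cos θ + (-(3 * r ^ 4 / 2 + r ^ 6)) := fun θ => by
    rw [Real.cos_two_mul, Real.cos_three_mul]; unfold Yr; ring
  refine ⟨?_, ?_, ?_, ?_⟩
  · rw [integral_congr_ae (Filter.Eventually.of_forall e1), lin h0 h1]
    ring
  · rw [integral_congr_ae (Filter.Eventually.of_forall e2), lin h0 h1]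
    ring
  · have h3 : ∫ θ, Yr r θ ^ 3 ∂(mu r) = -(3 / 4) * r ^ 4 * (1 - r ^ 2) := by
      rw [integral_congr_ae (Filter.Eventually.of_forall e3), lin h0 h1]
      ring
    rw [h3]
    have h4 : 0 ≤ r ^ 4 := by positivity
    have h5 : 0 ≤ 1 - r ^ 2 := by nlinarith
    have h6 : 1 - r ^ 2 ≤ 1 := by nlinarith [sq_nonneg r]
    rw [abs_le]
    constructor <;> nlinarith [mul_nonneg h4 h5, mul_le_mul_of_nonneg_left h6 h4]
  · have h4 : ∀ θ, Yr r θ ^ 4 ≤ 16 * r ^ 4 := fun θ => by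
      have h5 := Yr_abs h0 h1 θ
      have h6 := pow_le_pow_left₀ (abs_nonneg _) h5 4
      rw [pow_abs, abs_of_nonneg (by positivity)] at h6
      refine h6.trans (le_of_eq ?_)
      ring
    have h7 : ∫ θ, Yr r θ ^ 4 ∂(mu r) ≤ ∫ _θ, 16 * r ^ 4 ∂(mu r) := by
      refine integral_mono ?_ (integrable_const _) h4
      refine integrable_of_cont h0 h1 ((Yr_cont r).pow 4) (C := 16 * r ^ 4) fun x => ?_
      rw [abs_of_nonneg (by positivity)]
      exact h4 x
    simpa using h7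

end Pool.Agent.Lib.MP_6bc78b_nt.GP.H58P
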