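import Pool.Agent.Lib.MP_6bc78b_nt.GP.H58.Tor
import Pool.Agent.Lib.MP_6bc78b_nt.GP.H88.Mom4

/-! Project GP11 (MP_6bc78b_nt), row SCG. -/

set_option autoImplicit false

namespace Pool.Agent.Lib.MP_6bc78b_nt.GP.H58G

open MeasureTheory Complex Finset ProbabilityTheory
open Pool.Agent.Lib.MP_6bc78b_nt.GP.G11 Pool.Agent.Lib.MP_6bc78b_nt.GP.H58P
open Pool.Agent.Lib.MP_6bc78b_nt.GP.H58T2

/-! ## The families -/

/-- the product of the primes -/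
def DP (P : Finset ℕ) : ℕ := ∏ p ∈ P, p

/-- the index set -/
abbrev KI : Type := Option (ℕ × Bool)

def J0 (P : Finset ℕ) : Finset KI := insertNone (P ×ˢ (univ : Finset Bool))

def n0 (P : Finset ℕ) : KI → ℕ
  | none => DP P
  | some (p, true) => DP P * p
  | some (p, false) => DP P / p

noncomputable def c0 (c : ℝ) : KI → ℂ
  | none => -(c : ℂ)
  | some (p, _) => (rr p : ℂ) / 2

lemma DP_pos {P : Finset ℕ} (hP : ∀ p ∈ P, p.Prime) : 0 < DP P :=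
  Finset.prod_pos fun p hp => (hP p hp).pos

lemma DP_Sm {P : Finset ℕ} (hP : ∀ p ∈ P, p.Prime) : Sm P (DP P) := by
  refine ⟨DP_pos hP, fun q hq h => ?_⟩
  unfold DP at h
  obtain ⟨a, ha, h2⟩ := (Prime.dvd_finsetProd_iff hq.prime _).1 h
  rwa [(Nat.prime_dvd_prime_iff_eq hq (hP a ha)).1 h2]

lemma p_Sm {P : Finset ℕ} (hP : ∀ p ∈ P, p.Prime) {p : ℕ} (hp : p ∈ P) : Sm P p := by
  refine ⟨(hP p hp).pos, fun q hq h => ?_⟩
  rwa [(Nat.prime_dvd_prime_iff_eq hq (hP p hp)).1 h]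

lemma n0_Sm {P : Finset ℕ} (hP : ∀ p ∈ P, p.Prime) : ∀ i ∈ J0 P, Sm P (n0 P i) := by
  intro i hi
  unfold J0 at hi
  rcases i with _ | ⟨p, b⟩
  · exact DP_Sm hP
  · rw [Finset.some_mem_insertNone, Finset.mem_product] at hi
    have hp : p ∈ P := hi.1
    have hd : p ∣ DP P := Finset.dvd_prod_of_mem _ hp
    cases b
    · refine ⟨Nat.div_pos (Nat.le_of_dvd (DP_pos hP) hd) (hP p hp).pos, fun q hq h => ?_⟩
      exact (DP_Sm hP).2 q hq (h.trans (Nat.div_dvd_of_dvd hd))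
    · exact (DP_Sm hP).mul (p_Sm hP hp)

/-- `X = ∑ p^{-1/2} Re ψ(p)` -/
noncomputable def XX (P : Finset ℕ) (ψ : ℕ → ℂ) : ℝ := ∑ p ∈ P, rr p * (ψ p).re

/-- the linear family -/
theorem lin_fam {P : Finset ℕ} (hP : ∀ p ∈ P, p.Prime) (ψ : ℕ → ℂ)
    (h1 : ∀ m n : ℕ, 1 ≤ m → 1 ≤ n → ψ (m * n) = ψ m * ψ n) (h2 : ∀ m : ℕ, 1 ≤ m → ‖ψ m‖ = 1)
    (c : ℝ) : ∑ i ∈ J0 P, c0 c i * ψ (n0 P i) = ψ (DP P) * ((XX P ψ - c : ℝ) : ℂ) := by
  unfold J0
  rw [Finset.sum_insertNone, Finset.sum_product]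
  have h3 : ∀ p ∈ P, ∑ b : Bool, c0 c (some (p, b)) * ψ (n0 P (some (p, b))) =
      ψ (DP P) * ((rr p * (ψ p).re : ℝ) : ℂ) := by
    intro p hp
    have hp1 : 1 ≤ p := (hP p hp).pos
    have hd : p ∣ DP P := Finset.dvd_prod_of_mem _ hp
    have hD1 : 1 ≤ DP P / p := Nat.div_pos (Nat.le_of_dvd (DP_pos hP) hd) (hP p hp).pos
    rw [Fintype.sum_bool]
    show (rr p : ℂ) / 2 * ψ (DP P * p) + (rr p : ℂ) / 2 * ψ (DP P / p) = _
    have e1 : ψ (DP P / p) = ψ (DP P) * (starRingEnd ℂ) (ψ p) := by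
      have e2 : ψ (DP P) = ψ (DP P / p) * ψ p := by
        rw [← h1 _ _ hD1 hp1, Nat.div_mul_cancel hd]
      have e3 : ψ p * (starRingEnd ℂ) (ψ p) = 1 := by
        rw [Complex.mul_conj, Complex.normSq_eq_norm_sq, h2 p hp1]
        simp
      rw [e2, mul_assoc, e3, mul_one]
    have e4 : ψ p + (starRingEnd ℂ) (ψ p) = ((2 * (ψ p).re : ℝ) : ℂ) := Complex.add_conj _
    rw [h1 _ _ (DP_pos hP) hp1, e1]
    push_cast at e4 ⊢
    linear_combination ((rr p : ℂ) / 2 * ψ (DP P)) * e4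
  rw [Finset.sum_congr rfl h3, ← Finset.mul_sum]
  show -(c : ℂ) * ψ (DP P) + _ = _
  unfold XX
  push_cast
  ring

/-- the quadratic family -/
noncomputable def c1 (α b1 b2 : ℝ) (x : KI × KI) : ℂ := (α : ℂ) * (c0 b1 x.1 * c0 b2 x.2)

def n1 (P : Finset ℕ) (x : KI × KI) : ℕ := n0 P x.1 * n0 P x.2

theorem quad_fam {P : Finset ℕ} (hP : ∀ p ∈ P, p.Prime) (ψ : ℕ → ℂ)
    (h1 : ∀ m n : ℕ, 1 ≤ m → 1 ≤ n → ψ (m * n) = ψ m * ψ n) (h2 : ∀ m : ℕ, 1 ≤ m → ‖ψ m‖ = 1)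
    (α b1 b2 : ℝ) : ∑ i ∈ J0 P ×ˢ J0 P, c1 α b1 b2 i * ψ (n1 P i) =
      ψ (DP P) ^ 2 * ((α * ((XX P ψ - b1) * (XX P ψ - b2)) : ℝ) : ℂ) := by
  have h3 : ∑ i ∈ J0 P ×ˢ J0 P, c1 α b1 b2 i * ψ (n1 P i) =
      (α : ℂ) * ((∑ i ∈ J0 P, c0 b1 i * ψ (n0 P i)) * ∑ j ∈ J0 P, c0 b2 j * ψ (n0 P j)) := by
    rw [Finset.sum_mul_sum, Finset.sum_product, Finset.mul_sum]
    refine Finset.sum_congr rfl fun i hi => ?_
    rw [Finset.mul_sum]
    refine Finset.sum_congr rfl fun j hj => ?_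
    unfold c1 n1
    simp only
    rw [h1 _ _ (n0_Sm hP i hi).1 (n0_Sm hP j hj).1]
    ring
  rw [h3, lin_fam hP ψ h1 h2, lin_fam hP ψ h1 h2]
  push_cast
  ring

/-! ## The two evaluations -/

/-- the sum of squares as a polynomial in `X` -/
noncomputable def qq (α β b1 b2 x : ℝ) : ℝ := (α * ((x - b1) * (x - b2))) ^ 2 + (β * (x - b1)) ^ 2

/-- the two families -/
noncomputable def SS (P : Finset ℕ) : Fin 2 → Finset ℕ :=
  ![fS (J0 P ×ˢ J0 P) (n1 P), fS (J0 P) (n0 P)]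

noncomputable def aa (P : Finset ℕ) (α β b1 b2 : ℝ) : Fin 2 → ℕ → ℂ :=
  ![fa (J0 P ×ˢ J0 P) (n1 P) (c1 α b1 b2), fa (J0 P) (n0 P) (fun i => (β : ℂ) * c0 b1 i)]

lemma n1_Sm {P : Finset ℕ} (hP : ∀ p ∈ P, p.Prime) : ∀ i ∈ J0 P ×ˢ J0 P, Sm P (n1 P i) := by
  intro i hi
  rw [Finset.mem_product] at hi
  exact (n0_Sm hP _ hi.1).mul (n0_Sm hP _ hi.2)

lemma SS_Sm {P : Finset ℕ} (hP : ∀ p ∈ P, p.Prime) (i : Fin 2) : ∀ m ∈ SS P i, Sm P m := by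
  intro m hm
  fin_cases i
  · obtain ⟨j, hj, rfl⟩ := Finset.mem_image.1 (show m ∈ (J0 P ×ˢ J0 P).image (n1 P) from hm)
    exact n1_Sm hP j hj
  · obtain ⟨j, hj, rfl⟩ := Finset.mem_image.1 (show m ∈ (J0 P).image (n0 P) from hm)
    exact n0_Sm hP j hj

lemma sq_vals {P : Finset ℕ} (hP : ∀ p ∈ P, p.Prime) (ψ : ℕ → ℂ)
    (h1 : ∀ m n : ℕ, 1 ≤ m → 1 ≤ n → ψ (m * n) = ψ m * ψ n) (h2 : ∀ m : ℕ, 1 ≤ m → ‖ψ m‖ = 1)
    (α β b1 b2 : ℝ) :
    ‖∑ i ∈ J0 P ×ˢ J0 P, c1 α b1 b2 i * ψ (n1 P i)‖ ^ 2 =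
      (α * ((XX P ψ - b1) * (XX P ψ - b2))) ^ 2 ∧
    ‖∑ i ∈ J0 P, (β : ℂ) * c0 b1 i * ψ (n0 P i)‖ ^ 2 = (β * (XX P ψ - b1)) ^ 2 := by
  have hD := h2 _ (DP_pos hP)
  constructor
  · rw [quad_fam hP ψ h1 h2, norm_mul, norm_pow, hD, one_pow, one_mul, Complex.norm_real,
      Real.norm_eq_abs, sq_abs]
  · simp only [mul_assoc]
    rw [← Finset.mul_sum, lin_fam hP ψ h1 h2, norm_mul, norm_mul, hD, one_mul, Complex.norm_real,
      Complex.norm_real, ← norm_mul, Real.norm_eq_abs, sq_abs]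

/-- on the critical line -/
theorem val_line {P : Finset ℕ} (hP : ∀ p ∈ P, p.Prime) (α β b1 b2 u : ℝ) :
    ∑ i, ‖cA (SS P i) (aa P α β b1 b2 i) (1 / 2 + u * I)‖ ^ 2 =
      qq α β b1 b2 (XX P fun m => (m : ℂ) ^ (-(u * I) : ℂ)) := by
  have h := sq_vals hP (fun m => (m : ℂ) ^ (-(u * I) : ℂ))
    (fun m n _ _ => by
      simp only [Nat.cast_mul]
      exact Complex.natCast_mul_natCast_cpow m n _)
    (fun m hm => by
      rw [Complex.norm_natCast_cpow_of_pos hm]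
      simp) α β b1 b2
  rw [Fin.sum_univ_two]
  show ‖cA (fS (J0 P ×ˢ J0 P) (n1 P)) (fa (J0 P ×ˢ J0 P) (n1 P) (c1 α b1 b2)) (1 / 2 + u * I)‖ ^ 2 +
    ‖cA (fS (J0 P) (n0 P)) (fa (J0 P) (n0 P) (fun i => (β : ℂ) * c0 b1 i)) (1 / 2 + u * I)‖ ^ 2 = _
  rw [fam_val _ _ _ (fun i hi => (n1_Sm hP i hi).1), fam_val _ _ _ (fun i hi => (n0_Sm hP i hi).1)]
  unfold qq
  rw [← h.1, ← h.2]

/-- `V = ∑ 1/p` -/
noncomputable def VV (P : Finset ℕ) : ℝ := ∑ p ∈ P, 1 / (p : ℝ)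

/-- `Z = ∑ 1/p^2` -/
noncomputable def ZZ (P : Finset ℕ) : ℝ := ∑ p ∈ P, 1 / (p : ℝ) ^ 2

/-- the centred sum -/
noncomputable def YY (P : Finset ℕ) (θ : P → ℝ) : ℝ := ∑ p : P, Yr (rr p) (θ p)

lemma XX_ph {P : Finset ℕ} (hP : ∀ p ∈ P, p.Prime) (θ : P → ℝ) :
    XX P (fun m => ph m θ) = VV P + YY P θ := by
  unfold XX VV YY
  rw [← Finset.sum_coe_sort P (fun p => rr p * (ph p θ).re),
    ← Finset.sum_coe_sort P (fun p => 1 / (p : ℝ)), ← Finset.sum_add_distrib]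
  refine Finset.sum_congr rfl fun p _ => ?_
  rw [ph_prime hP p θ]
  have e1 : (Complex.exp (-(θ p * I))).re = Real.cos (θ p) := by
    have : -(θ p * I : ℂ) = ((-(θ p) : ℝ) : ℂ) * I := by push_cast; ring
    rw [this, Complex.exp_ofReal_mul_I_re, Real.cos_neg]
  rw [e1]
  unfold Yr
  have := rr_sq p
  linear_combination this

lemma YY_cont (P : Finset ℕ) : Continuous (YY P) := by
  unfold YY
  exact continuous_finsetSum _ fun p _ => (Yr_cont _).comp (continuous_apply p)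

lemma YY_bd {P : Finset ℕ} (hP : ∀ p ∈ P, p.Prime) (θ : P → ℝ) :
    |YY P θ| ≤ ∑ _p : P, (2 : ℝ) := by
  unfold YY
  refine (Finset.abs_sum_le_sum_abs _ _).trans (Finset.sum_le_sum fun p _ => ?_)
  refine (Yr_abs (rr_nonneg p) (rr_lt (hP p p.2).two_le) _).trans ?_
  have := rr_lt (hP p p.2).two_le
  linarith

lemma gint {P : Finset ℕ} (hP : ∀ p ∈ P, p.Prime) {g : ℝ → ℝ} (hg : Continuous g) :
    Integrable (fun θ => g (YY P θ)) (tm P) := by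
  have := isProb_tm hP
  obtain ⟨C, hC⟩ := (isCompact_Icc (a := -(∑ _p : P, (2 : ℝ))) (b := ∑ _p : P, (2 : ℝ))).exists_bound_of_continuousOn
    hg.continuousOn
  refine Integrable.of_bound (hg.comp (YY_cont P)).aestronglyMeasurable C
    (Filter.Eventually.of_forall fun θ => hC _ ?_)
  exact abs_le.1 (YY_bd hP θ)

/-- the form -/
theorem val_Q {P : Finset ℕ} (hP : ∀ p ∈ P, p.Prime) (α β b1 b2 : ℝ) :
    ∑ i, Qf (SS P i) (aa P α β b1 b2 i) = ∫ θ, qq α β b1 b2 (VV P + YY P θ) ∂(tm P) := by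
  have h := fun θ : P → ℝ => sq_vals hP (fun m => ph m θ)
    (fun m n hm hn => ph_mul hm hn θ) (fun m _ => ph_norm m θ) α β b1 b2
  rw [Fin.sum_univ_two]
  show Qf (fS (J0 P ×ˢ J0 P) (n1 P)) (fa (J0 P ×ˢ J0 P) (n1 P) (c1 α b1 b2)) +
    Qf (fS (J0 P) (n0 P)) (fa (J0 P) (n0 P) (fun i => (β : ℂ) * c0 b1 i)) = _
  rw [fam_Q hP _ _ _ (n1_Sm hP), fam_Q hP _ _ _ (n0_Sm hP)]
  simp only [(h _).1, (h _).2, XX_ph hP]
  unfold qq
  rw [integral_add]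
  · exact gint hP (g := fun y => (α * ((VV P + y - b1) * (VV P + y - b2))) ^ 2) (by fun_prop)
  · exact gint hP (g := fun y => (β * (VV P + y - b1)) ^ 2) (by fun_prop)

/-! ## Moments -/

lemma int_coord {P : Finset ℕ} (hP : ∀ p ∈ P, p.Prime) (p : P) {f : ℝ → ℝ} (hf : Continuous f) :
    ∫ θ, f (θ p) ∂(tm P) = ∫ x, f x ∂(mu (rr p)) := by
  have : ∀ p : P, IsProbabilityMeasure (mu (rr p)) := fun p =>
    isProb (rr_nonneg _) (rr_lt (hP p p.2).two_le)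
  have h := (measurePreserving_eval (fun p : P => mu (rr p)) p).map_eq
  rw [← h, integral_map (measurable_pi_apply p).aemeasurable hf.aestronglyMeasurable]
  rfl

theorem mom {P : Finset ℕ} (hP : ∀ p ∈ P, p.Prime) :
    (∫ θ, YY P θ ∂(tm P) = 0) ∧ (∫ θ, YY P θ ^ 2 ∂(tm P) = (VV P - ZZ P) / 2) ∧
      (|∫ θ, YY P θ ^ 3 ∂(tm P)| ≤ 16 * ZZ P) ∧
      (∫ θ, YY P θ ^ 4 ∂(tm P) ≤ 3 * ((VV P - ZZ P) / 2) ^ 2 + 16 * ZZ P) := by
  have : ∀ p : P, IsProbabilityMeasure (mu (rr p)) := fun p =>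
    isProb (rr_nonneg _) (rr_lt (hP p p.2).two_le)
  have := isProb_tm hP
  have hI : iIndepFun (fun (p : P) (θ : P → ℝ) => Yr (rr p) (θ p)) (tm P) := by
    unfold tm
    exact iIndepFun_pi (fun p => (Yr_cont (rr p)).aemeasurable)
  have hr := fun p : P => moments (rr_nonneg p) (rr_lt (hP p p.2).two_le)
  have h := GP.M4.mom4 (tm P) (fun (p : P) (θ : P → ℝ) => Yr (rr p) (θ p)) Finset.univ hI
    (fun p => ((Yr_cont (rr p)).comp (continuous_apply p)).measurable)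
    (fun p θ => (Yr_abs (rr_nonneg p) (rr_lt (hP p p.2).two_le) _).trans (by
      have := rr_lt (hP p p.2).two_le
      linarith))
    (fun p => rr p ^ 2 * (1 - rr p ^ 2) / 2) (fun p => 16 * rr p ^ 4)
    (fun p _ => by rw [int_coord hP p (Yr_cont _)]; exact (hr p).1)
    (fun p _ => by
      rw [int_coord hP p (f := fun x => Yr (rr p) x ^ 2) ((Yr_cont _).pow 2)]; exact (hr p).2.1)
    (fun p _ => by
      rw [int_coord hP p (f := fun x => Yr (rr p) x ^ 3) ((Yr_cont _).pow 3)]; exact (hr p).2.2.1)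
    (fun p _ => by
      rw [int_coord hP p (f := fun x => Yr (rr p) x ^ 4) ((Yr_cont _).pow 4)]; exact (hr p).2.2.2)
  have e1 : ∑ p : P, rr p ^ 2 * (1 - rr p ^ 2) / 2 = (VV P - ZZ P) / 2 := by
    unfold VV ZZ
    rw [← Finset.sum_sub_distrib, Finset.sum_div, ← Finset.sum_coe_sort P]
    refine Finset.sum_congr rfl fun p _ => ?_
    rw [rr_sq]
    ring
  have e2 : ∑ p : P, 16 * rr p ^ 4 = 16 * ZZ P := by
    unfold ZZ
    rw [Finset.mul_sum, ← Finset.sum_coe_sort P]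
    refine Finset.sum_congr rfl fun p _ => ?_
    have : rr p ^ 4 = (rr p ^ 2) ^ 2 := by ring
    rw [this, rr_sq]
    ring
  rw [e1, e2] at h
  exact h

/-! ## The polynomial -/

noncomputable def al (s : ℝ) : ℝ := Real.sqrt (1 / 32) / s ^ 2
noncomputable def be (s : ℝ) : ℝ := Real.sqrt (7 / 128) / s

lemma qq_z {s : ℝ} (hs : 0 < s) (V K z : ℝ) :
    qq (al s) (be s) (V + K + 2 * s) (V + K - 5 / 2 * s) (V + K + s * z) =
      1 + z * (z + 2) ^ 2 * (z - 3) / 32 := by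
  have h1 : al s ^ 2 = 1 / 32 / s ^ 4 := by
    unfold al
    rw [div_pow, Real.sq_sqrt (by norm_num)]
    ring
  have h2 : be s ^ 2 = 7 / 128 / s ^ 2 := by
    unfold be
    rw [div_pow, Real.sq_sqrt (by norm_num)]
  unfold qq
  rw [mul_pow (al s), mul_pow (be s), h1, h2]
  field_simp
  ring

lemma qq_ge {s : ℝ} (hs : 0 < s) (V K x : ℝ) (hx : x ≤ V + K) :
    1 ≤ qq (al s) (be s) (V + K + 2 * s) (V + K - 5 / 2 * s) x := by
  obtain ⟨z, rfl⟩ : ∃ z, x = V + K + s * z := ⟨(x - (V + K)) / s, by field_simp; ring⟩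
  have hz : z ≤ 0 := by
    by_contra h
    push Not at h
    nlinarith [mul_pos hs h]
  rw [qq_z hs]
  have h1 : 0 ≤ z * (z - 3) := mul_nonneg_of_nonpos_of_nonpos hz (by linarith)
  nlinarith [mul_nonneg h1 (sq_nonneg (z + 2))]

lemma qq_Y {s : ℝ} (hs : 0 < s) (V K Y : ℝ) :
    qq (al s) (be s) (V + K + 2 * s) (V + K - 5 / 2 * s) (V + Y) =
      1 / (32 * s ^ 4) * Y ^ 4 + (1 - 4 * (K / s)) / (32 * s ^ 3) * Y ^ 3 +
      (6 * (K / s) ^ 2 - 3 * (K / s) - 8) / (32 * s ^ 2) * Y ^ 2 +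
      (-4 * (K / s) ^ 3 + 3 * (K / s) ^ 2 + 16 * (K / s) - 12) / (32 * s) * Y +
      ((K / s) ^ 4 - (K / s) ^ 3 - 8 * (K / s) ^ 2 + 12 * (K / s) + 32) / 32 := by
  have : V + Y = V + K + s * ((Y - K) / s) := by field_simp; ring
  rw [this, qq_z hs]
  field_simp
  ring

lemma final_ineq {V Z K s M2 M3 M4 : ℝ} (hs : s ^ 2 = V / 2) (hs1 : 1 ≤ s) (hK : 50 * |K| ≤ s)
    (hZ0 : 0 ≤ Z) (hZ : 800 * Z ≤ s ^ 2) (h2 : M2 = (V - Z) / 2) (h3 : |M3| ≤ 16 * Z)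
    (h4 : M4 ≤ 3 * ((V - Z) / 2) ^ 2 + 16 * Z) :
    1 / (32 * s ^ 4) * M4 + (1 - 4 * (K / s)) / (32 * s ^ 3) * M3 +
      (6 * (K / s) ^ 2 - 3 * (K / s) - 8) / (32 * s ^ 2) * M2 +
      ((K / s) ^ 4 - (K / s) ^ 3 - 8 * (K / s) ^ 2 + 12 * (K / s) + 32) / 32 ≤ 9 / 10 := by
  have hs0 : 0 < s := by linarith
  set κ := K / s with hκ
  have k1 : |κ| ≤ 1 / 50 := by
    rw [hκ, abs_div, abs_of_pos hs0, div_le_iff₀ hs0]
    linarith
  have k2 := abs_le.1 k1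
  have a2 : M2 / s ^ 2 = 1 - Z / s ^ 2 / 2 := by
    rw [h2, show V = 2 * s ^ 2 by linarith]
    field_simp
  have zz : Z / s ^ 2 ≤ 1 / 800 := by
    rw [div_le_iff₀ (by positivity)]
    linarith
  have zz0 : 0 ≤ Z / s ^ 2 := by positivity
  have a3 : |M3 / s ^ 3| ≤ 1 / 50 := by
    rw [abs_div, abs_of_pos (pow_pos hs0 3), div_le_iff₀ (pow_pos hs0 3)]
    have : s ^ 2 ≤ s ^ 3 := pow_le_pow_right₀ hs1 (by norm_num)
    linarith
  have a4 : M4 / s ^ 4 ≤ 3 + 1 / 50 := by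
    rw [div_le_iff₀ (pow_pos hs0 4)]
    have e1 : ((V - Z) / 2) ^ 2 ≤ s ^ 4 := by
      have e2 : 0 ≤ (V - Z) / 2 := by nlinarith
      have e3 : (V - Z) / 2 ≤ s ^ 2 := by linarith
      calc ((V - Z) / 2) ^ 2 ≤ (s ^ 2) ^ 2 := pow_le_pow_left₀ e2 e3 2
        _ = s ^ 4 := by ring
    have e4 : s ^ 2 ≤ s ^ 4 := pow_le_pow_right₀ hs1 (by norm_num)
    linarith
  have a3' := abs_le.1 a3
  have e : 1 / (32 * s ^ 4) * M4 + (1 - 4 * κ) / (32 * s ^ 3) * M3 +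
      (6 * κ ^ 2 - 3 * κ - 8) / (32 * s ^ 2) * M2 +
      (κ ^ 4 - κ ^ 3 - 8 * κ ^ 2 + 12 * κ + 32) / 32 =
      (M4 / s ^ 4 + (1 - 4 * κ) * (M3 / s ^ 3) + (6 * κ ^ 2 - 3 * κ - 8) * (M2 / s ^ 2) +
      (κ ^ 4 - κ ^ 3 - 8 * κ ^ 2 + 12 * κ + 32)) / 32 := by
    field_simp
  rw [e, a2, div_le_iff₀ (by norm_num)]
  generalize M3 / s ^ 3 = m3 at *
  generalize M4 / s ^ 4 = m4 at *
  generalize Z / s ^ 2 = w at *
  clear_value κ
  have b1 : (1 - 4 * κ) * m3 ≤ 27 / 1250 := by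
    have e1 : |(1 - 4 * κ) * m3| ≤ 27 / 25 * (1 / 50) := by
      rw [abs_mul]
      refine mul_le_mul ?_ a3 (abs_nonneg _) (by norm_num)
      rw [abs_le]
      constructor <;> linarith [k2.1, k2.2]
    have e2 := (abs_le.1 e1).2
    linarith
  have k3 : κ ^ 2 ≤ 1 / 2500 := by
    have := pow_le_pow_left₀ (abs_nonneg κ) k1 2
    rw [sq_abs] at this
    linarith
  have k30 := sq_nonneg κ
  have b2 : (6 * κ ^ 2 - 3 * κ - 8) * (1 - w / 2) ≤ -7.8 := by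
    have e1 : 6 * κ ^ 2 - 3 * κ - 8 ≤ -7.9 := by linarith [k2.1, k2.2]
    have e2 : -9 ≤ 6 * κ ^ 2 - 3 * κ - 8 := by linarith [k2.1, k2.2]
    nlinarith
  have b3 : κ ^ 4 ≤ 1 / 2500 := by
    have := pow_le_pow_left₀ k30 k3 2
    have e3 : κ ^ 4 = (κ ^ 2) ^ 2 := by ring
    rw [e3]
    refine this.trans ?_
    norm_num
  have b4 : -κ ^ 3 ≤ 1 / 2500 := by
    have e3 : -κ ^ 3 = κ ^ 2 * (-κ) := by ring
    rw [e3]
    have e4 : κ ^ 2 * (-κ) ≤ κ ^ 2 * 1 := mul_le_mul_of_nonneg_left (by linarith [k2.1]) k30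
    linarith
  linarith [k2.1, k2.2]

theorem int_qq {P : Finset ℕ} (hP : ∀ p ∈ P, p.Prime) {s : ℝ} (hs : 0 < s) (K : ℝ) :
    ∫ θ, qq (al s) (be s) (VV P + K + 2 * s) (VV P + K - 5 / 2 * s) (VV P + YY P θ) ∂(tm P) =
      1 / (32 * s ^ 4) * (∫ θ, YY P θ ^ 4 ∂(tm P)) +
      (1 - 4 * (K / s)) / (32 * s ^ 3) * (∫ θ, YY P θ ^ 3 ∂(tm P)) +
      (6 * (K / s) ^ 2 - 3 * (K / s) - 8) / (32 * s ^ 2) * (∫ θ, YY P θ ^ 2 ∂(tm P)) +
      (-4 * (K / s) ^ 3 + 3 * (K / s) ^ 2 + 16 * (K / s) - 12) / (32 * s) *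
        (∫ θ, YY P θ ∂(tm P)) +
      ((K / s) ^ 4 - (K / s) ^ 3 - 8 * (K / s) ^ 2 + 12 * (K / s) + 32) / 32 := by
  have := isProb_tm hP
  simp only [qq_Y hs]
  generalize 1 / (32 * s ^ 4) = a4
  generalize (1 - 4 * (K / s)) / (32 * s ^ 3) = a3
  generalize (6 * (K / s) ^ 2 - 3 * (K / s) - 8) / (32 * s ^ 2) = a2
  generalize (-4 * (K / s) ^ 3 + 3 * (K / s) ^ 2 + 16 * (K / s) - 12) / (32 * s) = a1
  generalize ((K / s) ^ 4 - (K / s) ^ 3 - 8 * (K / s) ^ 2 + 12 * (K / s) + 32) / 32 = a0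
  rw [integral_add (gint hP (g := fun y => a4 * y ^ 4 + a3 * y ^ 3 + a2 * y ^ 2 + a1 * y)
      (by fun_prop)) (integrable_const _),
    integral_add (gint hP (g := fun y => a4 * y ^ 4 + a3 * y ^ 3 + a2 * y ^ 2) (by fun_prop))
      (gint hP (g := fun y => a1 * y) (by fun_prop)),
    integral_add (gint hP (g := fun y => a4 * y ^ 4 + a3 * y ^ 3) (by fun_prop))
      (gint hP (g := fun y => a2 * y ^ 2) (by fun_prop)),
    integral_add (gint hP (g := fun y => a4 * y ^ 4) (by fun_prop))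
      (gint hP (g := fun y => a3 * y ^ 3) (by fun_prop)),
    integral_const_mul, integral_const_mul, integral_const_mul, integral_const_mul]
  simp

/-! ## The choice of `y'` -/

lemma Vy_unbdd (B : ℝ) (y : ℕ) : ∃ y' : ℕ, y < y' ∧ B ≤ Vy y' := by
  have h1 := (not_summable_iff_tendsto_nat_atTop_of_nonneg
    (f := {p : ℕ | Nat.Prime p}.indicator fun n : ℕ => (1 : ℝ) / n) (fun n => by
      refine Set.indicator_nonneg (fun x _ => by positivity) n)).1 not_summable_one_div_on_primes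
  obtain ⟨N, hN⟩ := (h1.eventually (Filter.eventually_ge_atTop B)).exists_forall_of_atTop
  refine ⟨N + y + 1, by omega, (hN (N + y + 1) (by omega)).trans ?_⟩
  unfold Vy
  rw [Finset.sum_filter]
  refine (Finset.sum_le_sum_of_subset_of_nonneg (t := Finset.range (N + y + 2)) ?_ ?_).trans
    (le_of_eq ?_)
  · exact Finset.range_mono (by omega)
  · intro i _ _
    exact Set.indicator_nonneg (fun x _ => by positivity) i
  · symm
    refine Finset.sum_subset_zero_on_sdiff ?_ ?_ ?_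
    · intro x hx
      rw [Finset.mem_Icc] at hx
      rw [Finset.mem_range]
      omega
    · intro x hx
      rw [Finset.mem_sdiff, Finset.mem_range, Finset.mem_Icc] at hx
      have : x = 0 := by omega
      subst this
      simp
    · intro x _
      by_cases hx : x.Prime
      · simp [Set.indicator, hx]
      · simp [Set.indicator, hx]

theorem scg : SCGStatement := by
  intro y K
  set Z0 : ℝ := ∑' n : ℕ, 1 / (n : ℝ) ^ 2 with hZ0
  have hsum : Summable fun n : ℕ => 1 / (n : ℝ) ^ 2 := Real.summable_one_div_nat_pow.2 (by norm_num)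
  have hZ0' : 0 ≤ Z0 := tsum_nonneg fun n => by positivity
  set s0 : ℝ := 1 + 50 * |K| + 800 * Z0 with hs0
  obtain ⟨y', hy', hV⟩ := Vy_unbdd (Vy y + 2 * s0 ^ 2) y
  set P : Finset ℕ := (Finset.Icc 1 y').filter Nat.Prime \ (Finset.Icc 1 y).filter Nat.Prime with hPdef
  have hsub : (Finset.Icc 1 y).filter Nat.Prime ⊆ (Finset.Icc 1 y').filter Nat.Prime :=
    Finset.filter_subset_filter _ (Finset.Icc_subset_Icc le_rfl hy'.le)
  have hmem : ∀ p : ℕ, p ∈ P → p.Prime ∧ y < p ∧ p ≤ y' := by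
    intro p hp
    rw [hPdef, Finset.mem_sdiff, Finset.mem_filter, Finset.mem_filter, Finset.mem_Icc,
      Finset.mem_Icc] at hp
    obtain ⟨⟨⟨h1, h2⟩, h3⟩, h4⟩ := hp
    refine ⟨h3, ?_, h2⟩
    by_contra h5
    exact h4 ⟨⟨h1, by omega⟩, h3⟩
  have hP : ∀ p ∈ P, p.Prime := fun p hp => (hmem p hp).1
  have hVV : VV P = Vy y' - Vy y := by
    unfold VV Vy
    rw [hPdef, Finset.sum_sdiff_eq_sub hsub]
  have hVV2 : 2 * s0 ^ 2 ≤ VV P := by rw [hVV]; linarith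
  have hs0p : 1 ≤ s0 := by
    have := abs_nonneg K
    linarith
  set s : ℝ := Real.sqrt (VV P / 2) with hsdef
  have hss : s ^ 2 = VV P / 2 := Real.sq_sqrt (by nlinarith)
  have hs0s : s0 ≤ s := by
    rw [hsdef]
    refine Real.le_sqrt_of_sq_le ?_
    linarith
  have hspos : 0 < s := by linarith
  have hZZ : ZZ P ≤ Z0 := hsum.sum_le_tsum P fun i _ => by positivity
  have hZZ0 : 0 ≤ ZZ P := Finset.sum_nonneg fun i _ => by positivity
  refine ⟨y', SS P, aa P (al s) (be s) (VV P + K + 2 * s) (VV P + K - 5 / 2 * s), hy', ?_, ?_, ?_⟩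
  · intro i m hm
    obtain ⟨h1, h2⟩ := SS_Sm hP i m hm
    exact ⟨h1, fun p hp hpm => (hmem p (h2 p hp hpm)).2⟩
  · intro u hu
    rw [val_line hP]
    refine qq_ge hspos _ _ _ ?_
    have e1 : XX P (fun m => (m : ℂ) ^ (-(u * I) : ℂ)) = (Py y' u - Py y u).re := by
      unfold Py XX
      rw [← Finset.sum_sdiff_eq_sub hsub, ← hPdef, Complex.re_sum]
      refine Finset.sum_congr rfl fun p hp => ?_
      have hpos : (0 : ℝ) < p := by exact_mod_cast (hP p hp).pos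
      have hne : ((p : ℕ) : ℂ) ≠ 0 := by exact_mod_cast hpos.ne'
      have e1 : (-(1 / 2 + u * I) : ℂ) = -(1 / 2 : ℝ) + (-(u * I)) := by push_cast; ring
      have e2 : ((p : ℕ) : ℂ) ^ ((-(1 / 2 : ℝ) : ℂ)) = ((rr p : ℝ) : ℂ) := by
        unfold rr
        rw [one_div (p : ℝ), Real.sqrt_inv, Real.sqrt_eq_rpow, ← Real.rpow_neg hpos.le,
          ← Complex.ofReal_natCast, ← Complex.ofReal_neg, ← Complex.ofReal_cpow hpos.le]
      rw [e1, Complex.cpow_add _ _ hne, e2, Complex.re_ofReal_mul]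
    rw [e1, hVV]
    exact hu
  · rw [val_Q hP, int_qq hP hspos]
    obtain ⟨h1, h2, h3, h4⟩ := mom hP
    rw [h1, mul_zero, add_zero]
    refine final_ineq hss (by linarith) ?_ hZZ0 ?_ h2 h3 h4
    · have := abs_nonneg K
      linarith
    · have := abs_nonneg K
      have h5 : s ≤ s ^ 2 := by nlinarith
      linarith

end Pool.Agent.Lib.MP_6bc78b_nt.GP.H58G
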