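import Pool.Agent.Lib.MP_6bc78b_nt.GP.H58.Pois
import Pool.Agent.Lib.MP_6bc78b_nt.GP.H11.Defs11

/-! Project GP11 (MP_6bc78b_nt), row SCG: the form `Qf` as an integral over the torus. -/

set_option autoImplicit false

namespace Pool.Agent.Lib.MP_6bc78b_nt.GP.H58T2

open MeasureTheory Complex Finset
open Pool.Agent.Lib.MP_6bc78b_nt.GP.G11 Pool.Agent.Lib.MP_6bc78b_nt.GP.H58P

/-- `p^{-1/2}` -/
noncomputable def rr (p : ℕ) : ℝ := Real.sqrt (1 / p)

lemma rr_nonneg (p : ℕ) : 0 ≤ rr p := Real.sqrt_nonneg _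

lemma rr_sq (p : ℕ) : rr p ^ 2 = 1 / p := Real.sq_sqrt (by positivity)

lemma rr_lt {p : ℕ} (hp : 2 ≤ p) : rr p < 1 := by
  have h1 := rr_sq p
  have h2 := rr_nonneg p
  have h3 : (1 : ℝ) / p ≤ 1 / 2 := one_div_le_one_div_of_le (by norm_num) (by exact_mod_cast hp)
  nlinarith

/-- The measure on the torus. -/
noncomputable def tm (P : Finset ℕ) : Measure (P → ℝ) := Measure.pi fun p : P => mu (rr p)

/-- The character of `m`. -/
noncomputable def ph {P : Finset ℕ} (m : ℕ) (θ : P → ℝ) : ℂ :=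
  ∏ p : P, Complex.exp (-((m.factorization p : ℂ) * θ p * I))

/-- `m` is composed of primes of `P`. -/
def Sm (P : Finset ℕ) (m : ℕ) : Prop := 1 ≤ m ∧ ∀ q : ℕ, q.Prime → q ∣ m → q ∈ P

lemma Sm.mul {P : Finset ℕ} {m n : ℕ} (hm : Sm P m) (hn : Sm P n) : Sm P (m * n) :=
  ⟨Nat.mul_pos hm.1 hn.1, fun q hq h => (hq.dvd_mul.1 h).elim (hm.2 q hq) (hn.2 q hq)⟩

lemma fac {P : Finset ℕ} {m : ℕ} (hm : Sm P m) : m = ∏ p : P, (p : ℕ) ^ m.factorization p := by
  have h1 : m.factorization.support ⊆ P := by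
    intro q hq
    rw [Nat.support_factorization] at hq
    exact hm.2 q (Nat.prime_of_mem_primeFactors hq) (Nat.dvd_of_mem_primeFactors hq)
  have h2 := Nat.factorization_prod_pow_eq_self (show m ≠ 0 by have := hm.1; omega)
  rw [Finsupp.prod_of_support_subset _ h1 _ (fun i _ => pow_zero i)] at h2
  rw [Finset.prod_coe_sort P fun p => p ^ m.factorization p]
  exact h2.symm

lemma Sm.gcd {P : Finset ℕ} {m n : ℕ} (hm : Sm P m) : Sm P (Nat.gcd m n) :=
  ⟨Nat.gcd_pos_of_pos_left _ hm.1, fun q hq h => hm.2 q hq (h.trans (Nat.gcd_dvd_left m n))⟩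

/-- The difference of the exponents. -/
def df (m n p : ℕ) : ℕ := ((n.factorization p : ℤ) - m.factorization p).natAbs

lemma gcd_sq {P : Finset ℕ} {m n : ℕ} (hm : Sm P m) (hn : Sm P n) :
    Nat.gcd m n ^ 2 * ∏ p : P, (p : ℕ) ^ df m n p = m * n := by
  have h1 := fac (Sm.gcd (n := n) hm)
  have h2 := fac hm
  have h3 := fac hn
  calc Nat.gcd m n ^ 2 * ∏ p : P, (p : ℕ) ^ df m n p
      = (∏ p : P, (p : ℕ) ^ (Nat.gcd m n).factorization p) ^ 2 * ∏ p : P, (p : ℕ) ^ df m n p := by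
        rw [← h1]
    _ = ∏ p : P, (p : ℕ) ^ ((Nat.gcd m n).factorization p * 2 + df m n p) := by
        rw [← Finset.prod_pow, ← Finset.prod_mul_distrib]
        exact Finset.prod_congr rfl fun p _ => by rw [← pow_mul, ← pow_add]
    _ = ∏ p : P, (p : ℕ) ^ (m.factorization p + n.factorization p) := by
        refine Finset.prod_congr rfl fun p _ => ?_
        congr 1
        have hm0 : m ≠ 0 := by have := hm.1; omega
        have hn0 : n ≠ 0 := by have := hn.1; omega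
        rw [Nat.factorization_gcd hm0 hn0, Finsupp.inf_apply]
        unfold df
        omega
    _ = (∏ p : P, (p : ℕ) ^ m.factorization p) * ∏ p : P, (p : ℕ) ^ n.factorization p := by
        rw [← Finset.prod_mul_distrib]
        exact Finset.prod_congr rfl fun p _ => by rw [← pow_add]
    _ = m * n := by rw [← h2, ← h3]

lemma prod_rr {P : Finset ℕ} (hP : ∀ p ∈ P, p.Prime) {m n : ℕ} (hm : Sm P m) (hn : Sm P n) :
    ∏ p : P, rr p ^ df m n p = (Nat.gcd m n : ℝ) / Real.sqrt (m * n) := by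
  have hm0 : (0 : ℝ) < m := by exact_mod_cast hm.1
  have hn0 : (0 : ℝ) < n := by exact_mod_cast hn.1
  have hnn : 0 ≤ ∏ p : P, rr p ^ df m n p :=
    Finset.prod_nonneg fun p _ => pow_nonneg (rr_nonneg _) _
  have hr : 0 ≤ (Nat.gcd m n : ℝ) / Real.sqrt (m * n) := by positivity
  refine (sq_eq_sq₀ hnn hr).1 ?_
  rw [div_pow, Real.sq_sqrt (by positivity), ← Finset.prod_pow]
  have h1 : ∏ p : P, (rr p ^ df m n p) ^ 2 = 1 / ∏ p : P, ((p : ℕ) : ℝ) ^ df m n p := by
    rw [one_div, ← Finset.prod_inv_distrib]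
    refine Finset.prod_congr rfl fun p _ => ?_
    rw [← pow_mul, mul_comm, pow_mul, rr_sq, one_div, inv_pow]
  have h2 : ((Nat.gcd m n : ℕ) : ℝ) ^ 2 * ∏ p : P, ((p : ℕ) : ℝ) ^ df m n p = m * n := by
    exact_mod_cast gcd_sq hm hn
  have h3 : (0 : ℝ) < ∏ p : P, ((p : ℕ) : ℝ) ^ df m n p :=
    Finset.prod_pos fun p _ => pow_pos (by exact_mod_cast (hP p p.2).pos) _
  rw [h1, eq_div_iff (by positivity), one_div, inv_mul_eq_iff_eq_mul₀ h3.ne', mul_comm]
  linarith

lemma isProb_tm {P : Finset ℕ} (hP : ∀ p ∈ P, p.Prime) : IsProbabilityMeasure (tm P) := by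
  unfold tm
  haveI : ∀ p : P, IsProbabilityMeasure (mu (rr p)) := fun p =>
    isProb (rr_nonneg _) (rr_lt (hP p p.2).two_le)
  infer_instance

lemma ph_norm {P : Finset ℕ} (m : ℕ) (θ : P → ℝ) : ‖ph m θ‖ = 1 := by
  unfold ph
  rw [norm_prod]
  refine Finset.prod_eq_one fun p _ => ?_
  have : -((m.factorization p : ℂ) * θ p * I) = ((-(m.factorization p * θ p) : ℝ) : ℂ) * I := by
    push_cast; ring
  rw [this, Complex.norm_exp_ofReal_mul_I]

lemma ph_mul {P : Finset ℕ} {m n : ℕ} (hm : 1 ≤ m) (hn : 1 ≤ n) (θ : P → ℝ) :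
    ph (m * n) θ = ph m θ * ph n θ := by
  unfold ph
  rw [← Finset.prod_mul_distrib]
  refine Finset.prod_congr rfl fun p _ => ?_
  rw [← Complex.exp_add, Nat.factorization_mul (by omega) (by omega)]
  congr 1
  rw [Finsupp.add_apply]
  push_cast
  ring

lemma ph_prime {P : Finset ℕ} (hP : ∀ p ∈ P, p.Prime) (p : P) (θ : P → ℝ) :
    ph (p : ℕ) θ = Complex.exp (-(θ p * I)) := by
  unfold ph
  rw [Finset.prod_eq_single p]
  · rw [(hP p p.2).factorization_self, Nat.cast_one, one_mul]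
  · intro q _ hq
    have : (p : ℕ).factorization q = 0 := by
      rw [(hP p p.2).factorization, Finsupp.single_apply, if_neg]
      exact fun h => hq (Subtype.ext h.symm)
    rw [this]
    simp
  · intro h; exact absurd (Finset.mem_univ p) h

lemma ph_cont {P : Finset ℕ} (m : ℕ) : Continuous fun θ : P → ℝ => ph m θ := by
  unfold ph
  fun_prop

/-- the kernel -/
theorem int_ker {P : Finset ℕ} (hP : ∀ p ∈ P, p.Prime) {m n : ℕ} (hm : Sm P m) (hn : Sm P n) :
    ∫ θ, ph m θ * (starRingEnd ℂ) (ph n θ) ∂(tm P) =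
      (((Nat.gcd m n : ℝ) / Real.sqrt (m * n) : ℝ) : ℂ) := by
  haveI : ∀ p : P, IsProbabilityMeasure (mu (rr p)) := fun p =>
    isProb (rr_nonneg _) (rr_lt (hP p p.2).two_le)
  have h1 : ∀ θ : P → ℝ, ph m θ * (starRingEnd ℂ) (ph n θ) =
      ∏ p : P, Complex.exp ((((n.factorization p : ℤ) - m.factorization p : ℤ) : ℂ) * θ p * I) := by
    intro θ
    unfold ph
    rw [map_prod, ← Finset.prod_mul_distrib]
    refine Finset.prod_congr rfl fun p _ => ?_
    rw [← Complex.exp_conj, ← Complex.exp_add]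
    congr 1
    simp only [map_neg, map_mul, Complex.conj_I, Complex.conj_ofReal, map_natCast]
    push_cast
    ring
  simp only [h1]
  unfold tm
  rw [integral_fintype_prod_eq_prod (μ := fun p : P => mu (rr p))
    (f := fun (p : P) (x : ℝ) =>
      Complex.exp ((((n.factorization p : ℤ) - m.factorization p : ℤ) : ℂ) * x * I))]
  rw [← prod_rr hP hm hn]
  push_cast
  refine Finset.prod_congr rfl fun p _ => ?_
  have h2 := int_exp (rr_nonneg p) (rr_lt (hP p p.2).two_le)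
    ((n.factorization p : ℤ) - m.factorization p)
  push_cast at h2
  rw [h2]
  rfl

/-! ## Families of monomials -/

section fam

variable {κ : Type} [DecidableEq κ]

/-- The support of a family. -/
def fS (I : Finset κ) (n : κ → ℕ) : Finset ℕ := I.image n

/-- The coefficients of a family. -/
noncomputable def fa (J : Finset κ) (n : κ → ℕ) (c : κ → ℂ) (m : ℕ) : ℂ :=
  ((Real.sqrt m : ℝ) : ℂ) * ∑ i ∈ J with n i = m, c i

lemma fiber (J : Finset κ) (n : κ → ℕ) (c : κ → ℂ) (ψ : ℕ → ℂ) :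
    ∑ m ∈ fS J n, (∑ i ∈ J with n i = m, c i) * ψ m = ∑ i ∈ J, c i * ψ (n i) := by
  unfold fS
  rw [← Finset.sum_fiberwise_of_maps_to (s := J) (t := J.image n) (g := n)
    (fun x hx => Finset.mem_image_of_mem n hx)]
  refine Finset.sum_congr rfl fun m _ => ?_
  rw [Finset.sum_mul]
  refine Finset.sum_congr rfl fun i hi => ?_
  rw [(Finset.mem_filter.1 hi).2]

/-- values on the critical line -/
theorem fam_val (J : Finset κ) (n : κ → ℕ) (c : κ → ℂ) (hn : ∀ i ∈ J, 1 ≤ n i) (u : ℝ) :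
    cA (fS J n) (fa J n c) (1 / 2 + u * I) = ∑ i ∈ J, c i * (n i : ℂ) ^ (-(u * I) : ℂ) := by
  unfold cA
  rw [← fiber J n c fun m => (m : ℂ) ^ (-(u * I) : ℂ)]
  refine Finset.sum_congr rfl fun m hm => ?_
  obtain ⟨i, hi, rfl⟩ := Finset.mem_image.1 hm
  have hpos : (0 : ℝ) < n i := by exact_mod_cast hn i hi
  have hne : ((n i : ℕ) : ℂ) ≠ 0 := by exact_mod_cast hpos.ne'
  unfold fa
  have e1 : (-(1 / 2 + u * I) : ℂ) = -(1 / 2 : ℝ) + (-(u * I)) := by push_cast; ring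
  have e2 : ((n i : ℕ) : ℂ) ^ ((-(1 / 2 : ℝ) : ℂ)) = (((Real.sqrt (n i))⁻¹ : ℝ) : ℂ) := by
    rw [Real.sqrt_eq_rpow, ← Real.rpow_neg hpos.le, ← Complex.ofReal_natCast,
      ← Complex.ofReal_neg, ← Complex.ofReal_cpow hpos.le]
  rw [e1, Complex.cpow_add _ _ hne, e2]
  have e3 : ((Real.sqrt (n i) : ℝ) : ℂ) * (((Real.sqrt (n i))⁻¹ : ℝ) : ℂ) = 1 := by
    rw [← Complex.ofReal_mul, mul_inv_cancel₀ (Real.sqrt_pos.2 hpos).ne', Complex.ofReal_one]
  linear_combination ((∑ j ∈ J with n j = n i, c j) * ((n i : ℕ) : ℂ) ^ (-(u * I) : ℂ)) * e3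

/-- the form as an integral -/
theorem fam_Q {P : Finset ℕ} (hP : ∀ p ∈ P, p.Prime) (J : Finset κ) (n : κ → ℕ) (c : κ → ℂ)
    (hn : ∀ i ∈ J, Sm P (n i)) :
    Qf (fS J n) (fa J n c) = ∫ θ, ‖∑ i ∈ J, c i * ph (n i) θ‖ ^ 2 ∂(tm P) := by
  haveI := isProb_tm hP
  have hint : ∀ i j : κ, Integrable (fun θ : P → ℝ => ph (n i) θ * (starRingEnd ℂ) (ph (n j) θ))
      (tm P) := by
    intro i j
    refine Integrable.of_bound ?_ 1 (Filter.Eventually.of_forall fun θ => ?_)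
    · exact ((ph_cont (n i)).mul (Complex.continuous_conj.comp (ph_cont (n j)))).aestronglyMeasurable
    · rw [norm_mul, RCLike.norm_conj, ph_norm, ph_norm, one_mul]
  -- the right side
  have h1 : ((∫ θ, ‖∑ i ∈ J, c i * ph (n i) θ‖ ^ 2 ∂(tm P) : ℝ) : ℂ) =
      ∑ i ∈ J, ∑ j ∈ J, c i * (starRingEnd ℂ) (c j) *
        (((Nat.gcd (n i) (n j) : ℝ) / Real.sqrt ((n i : ℝ) * n j) : ℝ) : ℂ) := by
    rw [← integral_complex_ofReal]
    have e1 : ∀ θ : P → ℝ, ((‖∑ i ∈ J, c i * ph (n i) θ‖ ^ 2 : ℝ) : ℂ) =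
        ∑ i ∈ J, ∑ j ∈ J, c i * (starRingEnd ℂ) (c j) *
          (ph (n i) θ * (starRingEnd ℂ) (ph (n j) θ)) := by
      intro θ
      rw [← Complex.normSq_eq_norm_sq, ← Complex.mul_conj, map_sum, Finset.sum_mul_sum]
      refine Finset.sum_congr rfl fun i _ => Finset.sum_congr rfl fun j _ => ?_
      rw [map_mul]
      ring
    simp only [e1]
    rw [integral_finset_sum _ fun i _ => integrable_finset_sum _ fun j _ => (hint i j).const_mul _]
    refine Finset.sum_congr rfl fun i hi => ?_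
    rw [integral_finset_sum _ fun j _ => (hint i j).const_mul _]
    refine Finset.sum_congr rfl fun j hj => ?_
    rw [integral_const_mul, int_ker hP (hn i hi) (hn j hj)]
  -- the left side
  have h2 : (∑ m ∈ fS J n, ∑ m' ∈ fS J n, fa J n c m * (starRingEnd ℂ) (fa J n c m') /
      (Nat.lcm m m' : ℂ)) = ∑ i ∈ J, ∑ j ∈ J, c i * (starRingEnd ℂ) (c j) *
        (((Nat.gcd (n i) (n j) : ℝ) / Real.sqrt ((n i : ℝ) * n j) : ℝ) : ℂ) := by
    have e2 : ∀ m ∈ fS J n, ∀ m' ∈ fS J n, fa J n c m * (starRingEnd ℂ) (fa J n c m') /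
        (Nat.lcm m m' : ℂ) = (∑ i ∈ J with n i = m, c i) *
          ((starRingEnd ℂ) (∑ j ∈ J with n j = m', c j) *
          (((Nat.gcd m m' : ℝ) / Real.sqrt ((m : ℝ) * m') : ℝ) : ℂ)) := by
      intro m hm m' hm'
      obtain ⟨i, hi, rfl⟩ := Finset.mem_image.1 hm
      obtain ⟨j, hj, rfl⟩ := Finset.mem_image.1 hm'
      have hpi : (0 : ℝ) < n i := by exact_mod_cast (hn i hi).1
      have hpj : (0 : ℝ) < n j := by exact_mod_cast (hn j hj).1
      have hg := Nat.gcd_mul_lcm (n i) (n j)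
      have hg' : ((Nat.gcd (n i) (n j) : ℕ) : ℝ) * (Nat.lcm (n i) (n j) : ℕ) = n i * n j := by
        exact_mod_cast hg
      have hl : (0 : ℝ) < (Nat.lcm (n i) (n j) : ℕ) := by
        exact_mod_cast Nat.lcm_pos (hn i hi).1 (hn j hj).1
      have key : Real.sqrt (n i) * Real.sqrt (n j) / ((Nat.lcm (n i) (n j) : ℕ) : ℝ) =
          (Nat.gcd (n i) (n j) : ℝ) / Real.sqrt ((n i : ℝ) * n j) := by
        rw [Real.sqrt_mul hpi.le]
        have s1 : 0 < Real.sqrt (n i) := Real.sqrt_pos.2 hpi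
        have s2 : 0 < Real.sqrt (n j) := Real.sqrt_pos.2 hpj
        rw [div_eq_div_iff hl.ne' (by positivity)]
        have q1 := Real.mul_self_sqrt hpi.le
        have q2 := Real.mul_self_sqrt hpj.le
        calc Real.sqrt (n i) * Real.sqrt (n j) * (Real.sqrt (n i) * Real.sqrt (n j)) =
              (Real.sqrt (n i) * Real.sqrt (n i)) * (Real.sqrt (n j) * Real.sqrt (n j)) := by ring
          _ = _ := by rw [q1, q2, ← hg']
      rw [← key]
      unfold fa
      rw [map_mul, Complex.conj_ofReal]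
      push_cast
      ring
    rw [Finset.sum_congr rfl fun m hm => Finset.sum_congr rfl fun m' hm' => e2 m hm m' hm']
    simp only [← Finset.mul_sum]
    rw [fiber J n c fun m => ∑ m' ∈ fS J n, (starRingEnd ℂ) (∑ j ∈ J with n j = m', c j) *
          (((Nat.gcd m m' : ℝ) / Real.sqrt ((m : ℝ) * m') : ℝ) : ℂ)]
    refine Finset.sum_congr rfl fun i _ => ?_
    simp only [map_sum]
    rw [fiber J n (fun j => (starRingEnd ℂ) (c j)) fun m' =>
      (((Nat.gcd (n i) m' : ℝ) / Real.sqrt ((n i : ℝ) * m') : ℝ) : ℂ), Finset.mul_sum]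
    refine Finset.sum_congr rfl fun j _ => ?_
    ring
  unfold Qf
  rw [h2, ← h1, Complex.ofReal_re]

end fam

end Pool.Agent.Lib.MP_6bc78b_nt.GP.H58T2
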